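import Pool.Agent.H70.RK.T2

/-!
# AFD: search for the first element of a list with a property
-/

set_option autoImplicit false

namespace Pool.Agent.H34.RK

open Pool.Agent.H70.RK

/-- the disjunction of a list of functions is a question of the next level -/
theorem afd_qst {V β : Type} {t j : ℕ} (L : List β) (p : β → (V → Bool) → Bool)
    (hL : L.length ≤ 2 ^ t) (hp : ∀ b ∈ L, Adp (Qst V t j) t (p b)) :
    Qst V t (j + 1) fun X => L.any fun b => p b X := by
  refine ⟨L.map p, by rw [List.length_map]; exact hL, ?_, ?_⟩
  · intro g hg
    obtain ⟨b, hb, rfl⟩ := List.mem_map.1 hg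
    exact hp b hb
  · intro X
    rw [List.any_eq_true]
    constructor
    · rintro ⟨b, hb, h⟩
      exact ⟨p b, List.mem_map.2 ⟨b, hb, rfl⟩, h⟩
    · rintro ⟨g, hg, h⟩
      obtain ⟨b, hb, rfl⟩ := List.mem_map.1 hg
      exact ⟨b, hb, h⟩

theorem pf_AFD : Pool.Agent.H70.RK.T_AFD := by
  intro V β t j K
  induction K with
  | zero =>
    intro L p hL ht hp
    match L, hL with
    | [], _ => exact Adp.pure _ none
    | [b], _ =>
      refine Adp.ask 0 (fun X => [b].any fun b => p b X) _ (fun _ => none) (fun _ => some b)
        (afd_qst [b] p (by simpa using Nat.one_le_two_pow) hp) (Adp.pure _ _) (Adp.pure _ _) ?_ ?_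
      · intro X hX
        have h2 : p b X = true := by simpa using hX
        simp [List.find?, h2]
      · intro X hX
        have h2 : p b X = false := by simpa using hX
        simp [List.find?, h2]
    | a :: b :: l, h => exact absurd h (by simp)
  | succ K ih =>
    intro L p hL ht hp
    have hLe : L.take (2 ^ K) ++ L.drop (2 ^ K) = L := List.take_append_drop _ _
    have m1 : ∀ b ∈ L.take (2 ^ K), b ∈ L := fun b hb => List.mem_of_mem_take hb
    have m2 : ∀ b ∈ L.drop (2 ^ K), b ∈ L := fun b hb => List.mem_of_mem_drop hb
    have hl1 : (L.take (2 ^ K)).length ≤ 2 ^ K := by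
      rw [List.length_take]
      exact min_le_left _ _
    have h1 := ih (L.take (2 ^ K)) p hl1 (by omega) (fun b hb => hp b (m1 b hb))
    have h2 := ih (L.drop (2 ^ K)) p (by rw [List.length_drop]; rw [pow_succ] at hL; omega)
      (by omega) (fun b hb => hp b (m2 b hb))
    have hfa : ∀ X, L.find? (fun b => p b X) = ((L.take (2 ^ K)).find? (fun b => p b X)).or
        ((L.drop (2 ^ K)).find? (fun b => p b X)) := by
      intro X
      rw [← List.find?_append, hLe]
    refine Adp.ask (K + 1) (fun X => (L.take (2 ^ K)).any fun b => p b X) _ _ _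
      (afd_qst _ p (hl1.trans (Nat.pow_le_pow_right two_pos (by omega)))
        (fun b hb => hp b (m1 b hb))) h2 h1 ?_ ?_
    · intro X hX
      obtain ⟨b, hb, h3⟩ := List.any_eq_true.1 hX
      show L.find? (fun b => p b X) = _
      rw [hfa]
      cases h4 : (L.take (2 ^ K)).find? (fun b => p b X) with
      | none =>
        rw [List.find?_eq_none] at h4
        exact absurd h3 (h4 b hb)
      | some a => rfl
    · intro X hX
      show L.find? (fun b => p b X) = _
      rw [hfa]
      have h4 : (L.take (2 ^ K)).find? (fun b => p b X) = none := by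
        rw [List.find?_eq_none]
        intro b hb h5
        have h6 : (L.take (2 ^ K)).any (fun b => p b X) = true :=
          List.any_eq_true.2 ⟨b, hb, h5⟩
        have h7 : (L.take (2 ^ K)).any (fun b => p b X) = false := hX
        rw [h6] at h7
        exact absurd h7 (by simp)
      rw [h4]
      rfl

end Pool.Agent.H34.RK
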