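import Pool.Agent.H70.RK.T2

/-!
# CLE: if a formula is always right then the function is computed by its restrictions
-/

set_option autoImplicit false

namespace Pool.Agent.H34.RK

open Finset Filter Pool.Agent.H6.NB Pool.Agent.H70.OQ Pool.Agent.H78.XQ Pool.Agent.H70.RK

section

variable {k n N : ℕ}

theorem cle_okA (a : Ad k n N) (P : Bl k n N)
    (h : (∏ p, mB (qs (hl p)) (hl p).length (rns (hl p)) (wln (hl p)) (a p.1 p.2.1 p.2.2) (P p)) ≠
      0) : okA a P := by
  intro p
  by_contra hc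
  refine h (Finset.prod_eq_zero (Finset.mem_univ p) ?_)
  unfold mB
  exact if_neg hc

theorem cle_total (hMAS : T_MAS) :
    ∑ x : Ar k n N × Bl k n N, 1 / (Fintype.card (Ar k n N) : ℝ) *
      (∏ p, m0 (qs (hl p)) (hl p).length (wln (hl p)) (x.2 p)) = 1 := by
  rw [Fintype.sum_prod_type]
  have h1 : ∑ P : Bl k n N, ∏ p, m0 (qs (hl p)) (hl p).length (wln (hl p)) (P p) = 1 := by
    have h2 : ∑ P : Bl k n N, ∏ p, m0 (qs (hl p)) (hl p).length (wln (hl p)) (P p) =
        ∏ p : Bi k n N, ∑ c, m0 (qs (hl p)) (hl p).length (wln (hl p)) c :=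
      (Fintype.prod_sum fun (p : Bi k n N) c =>
        m0 (qs (hl p)) (hl p).length (wln (hl p)) c).symm
    rw [h2]
    exact Finset.prod_eq_one fun p _ => (hMAS _ _ 0 _).2.1
  have h3 : (Fintype.card (Ar k n N) : ℝ) ≠ 0 := by
    have : 0 < Fintype.card (Ar k n N) := Fintype.card_pos_iff.2 ⟨fun _ _ => false⟩
    exact_mod_cast this.ne'
  have h4 : ∀ g : Ar k n N, ∑ P : Bl k n N, 1 / (Fintype.card (Ar k n N) : ℝ) *
      (∏ p, m0 (qs (hl p)) (hl p).length (wln (hl p)) (P p)) =
        1 / (Fintype.card (Ar k n N) : ℝ) := by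
    intro g
    rw [← Finset.mul_sum, h1, mul_one]
  have h5 : ∑ g : Ar k n N, ∑ P : Bl k n N, 1 / (Fintype.card (Ar k n N) : ℝ) *
      (∏ p, m0 (qs (hl p)) (hl p).length (wln (hl p)) (P p)) =
      ∑ _g : Ar k n N, 1 / (Fintype.card (Ar k n N) : ℝ) :=
    Finset.sum_congr rfl fun g _ => h4 g
  refine Eq.trans h5 ?_
  rw [Finset.sum_const, Finset.card_univ, nsmul_eq_mul, mul_one_div_cancel h3]

end

theorem cle_sub {n : ℕ} (B : ((Fin n → Bool) → Bool) → List Bool → Bool) (hB : Lt B) :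
    ∃ ρ : List Bool → Bool ⊕ (Fin n → Bool), ∀ X, sbs ρ X = B X := by
  have h : ∀ w, ∃ r : Bool ⊕ (Fin n → Bool), ∀ X : (Fin n → Bool) → Bool,
      (match r with
        | .inl b => b
        | .inr v => X v) = B X w := by
    intro w
    rcases hB w with ⟨b, hb⟩ | ⟨v, hv⟩
    · exact ⟨.inl b, fun X => (hb X).symm⟩
    · exact ⟨.inr v, fun X => (hv X).symm⟩
  choose ρ hρ using h
  exact ⟨ρ, fun X => funext fun w => hρ w X⟩

theorem cle_bnot (b : Bool) : ¬ b = !b := by
  cases b <;> intro h <;> cases h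

theorem cle_bool {x b : Bool} (h : x ≠ b) : x = !b := by
  cases x <;> cases b <;> first | rfl | exact absurd rfl h

theorem pf_CLE (hCLH : Pool.Agent.H70.RK.T_CLH) (hNEW : Pool.Agent.H70.RC.T_NEW)
    (hNUM : Pool.Agent.H70.RK.T_NUM) (hADS : Pool.Agent.H70.RK.T_ADS)
    (hLIT : Pool.Agent.H70.RK.T_LIT) (hMAS : T_MAS) : Pool.Agent.H70.RK.T_CLE := by
  classical
  intro k d c V f W hk hW
  filter_upwards [hNUM k c hk, eventually_ge_atTop (max d 1)] with n hn hnd N hN D hright
  obtain ⟨-, -, hnN, -, hb, -, hδ⟩ := hn N hN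
  have hd : d ≤ n := (le_max_left _ _).trans hnd
  have hn1 : 1 ≤ n := (le_max_right _ _).trans hnd
  have hmN : n ^ c + c ≤ N := by
    have h1 : n ^ c ≤ n ^ (c + 1) := Nat.pow_le_pow_right hn1 (by omega)
    omega
  have hm : n ^ c + c ≤ 2 ^ (n + 20) ^ 2 := by
    refine hmN.trans (le_trans ?_ hb)
    have h2 : N ≤ 8 * N := by omega
    refine h2.trans (Nat.le_self_pow (by omega) _)
  set w : Ar k n N × Bl k n N → ℝ := fun x => 1 / (Fintype.card (Ar k n N) : ℝ) *
      (∏ p, m0 (qs (hl p)) (hl p).length (wln (hl p)) (x.2 p)) with hw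
  have hw0 : ∀ x, 0 ≤ w x := fun x => mul_nonneg (by positivity)
    (Finset.prod_nonneg fun p _ => (hMAS _ _ 0 _).1 _)
  have hw1 : ∑ x, w x = 1 := cle_total hMAS
  obtain ⟨G, hG⟩ : ∃ G : ((Fin n → Bool) → Bool) → Ar k n N × Bl k n N → Prop, ∀ X x,
      (G X x ↔ ∀ b, f n X = some b → W n (lbv V D X x.1 x.2) = b) := ⟨_, fun _ _ => Iff.rfl⟩
  obtain ⟨η, hη⟩ : ∃ η : ℝ, η = (1 / 2 : ℝ) ^ 300 := ⟨_, rfl⟩
  have hη0 : 0 ≤ η := by
    rw [hη]
    exact pow_nonneg (by norm_num) _
  rw [← hη] at hδ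
  have hmass : ∀ X, 1 - η ≤ ∑ x, w x * (if G X x then 1 else 0) := by
    intro X
    by_cases hex : ∃ b, f n X = some b
    swap
    · have h1 : ∑ x, w x * (if G X x then 1 else 0) = 1 := by
        refine Eq.trans (Finset.sum_congr rfl fun x _ => ?_) hw1
        rw [if_pos, mul_one]
        rw [hG]
        intro b hb'
        exact absurd ⟨b, hb'⟩ hex
      rw [h1]
      linarith
    · obtain ⟨b, hfX⟩ := hex
      have h1 := hCLH k d (n ^ c + c) V n N D X (W n) (!b) hk hnN hmN (hW n) hd hm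
      have h2 : ∑ a : Ad k n N, ∑ g : Ar k n N, ∑ P : Bl k n N,
          1 / ((Fintype.card (Ad k n N) : ℝ) * Fintype.card (Ar k n N)) *
          (∏ p, mB (qs (hl p)) (hl p).length (rns (hl p)) (wln (hl p)) (a p.1 p.2.1 p.2.2)
            (P p)) * (if W n (orc V (ina n N D X a g P)) = !b then 1 else 0) = 0 := by
        refine Finset.sum_eq_zero fun a _ => Finset.sum_eq_zero fun g _ =>
          Finset.sum_eq_zero fun P _ => ?_
        by_cases hz : (∏ p, mB (qs (hl p)) (hl p).length (rns (hl p)) (wln (hl p))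
            (a p.1 p.2.1 p.2.2) (P p)) = 0
        · rw [hz, mul_zero, zero_mul]
        · obtain ⟨h, hh⟩ := hADS (Li n N) (fun s => Ck s.1) k a
          have h3 : okE (k := k) (n := n) (N := N) (h, g, P) := by
            change okA (adr k h) P
            rw [hh]
            exact cle_okA a P hz
          have h4 := hright X (h, g, P) h3 b hfX
          have h5 : ins n N D X ((h, g, P) : Se k n N) = ina n N D X a g P := by
            change ina n N D X (adr k h) g P = _
            rw [hh]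
          rw [h5] at h4
          rw [h4, if_neg (cle_bnot b), mul_zero]
      rw [h2] at h1
      have h3 : ∑ g : Ar k n N, ∑ P : Bl k n N, 1 / (Fintype.card (Ar k n N) : ℝ) *
          (∏ p, m0 (qs (hl p)) (hl p).length (wln (hl p)) (P p)) *
          (if W n (lbv V D X g P) = !b then 1 else 0) =
          ∑ x, w x * (if W n (lbv V D X x.1 x.2) = !b then 1 else 0) := by
        rw [Fintype.sum_prod_type]
      rw [h3] at h1
      have h4 : ∑ x, w x * (if G X x then 1 else 0) +
          ∑ x, w x * (if W n (lbv V D X x.1 x.2) = !b then 1 else 0) = 1 := by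
        rw [← Finset.sum_add_distrib]
        refine Eq.trans (Finset.sum_congr rfl fun x _ => ?_) hw1
        by_cases h5 : W n (lbv V D X x.1 x.2) = b
        · have h6 : G X x := by
            rw [hG]
            intro b' hb'
            rw [hfX] at hb'
            rw [h5]
            exact Option.some.inj hb'
          rw [if_pos h6, if_neg (by rw [h5]; exact cle_bnot b), mul_one, mul_zero, add_zero]
        · have h6 : ¬ G X x := fun h7 => h5 ((hG X x).1 h7 b hfX)
          have h7 : W n (lbv V D X x.1 x.2) = !b := cle_bool h5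
          rw [if_neg h6, if_pos h7, mul_one, mul_zero, zero_add]
      linarith
  have hY : Nonempty ((Fin n → Bool) → Bool) := ⟨fun _ => false⟩
  obtain ⟨l, -, hl2⟩ := hNEW (Ar k n N × Bl k n N) ((Fin n → Bool) → Bool) w G (2 ^ n + 1) hw0
    hw1.le (by rw [← hη]; exact hmass) (Nat.le_add_left 1 _) (by
      rw [Fintype.card_fun, Fintype.card_fun, Fintype.card_bool, Fintype.card_fin]
      exact Nat.pow_le_pow_right (by norm_num) (by omega))
  have hρ : ∀ i, ∃ ρ : List Bool → Bool ⊕ (Fin n → Bool), ∀ X, sbs ρ X =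
      lbv V D X (l i).1 (l i).2 := fun i =>
    cle_sub (fun X => lbv V D X (l i).1 (l i).2) (hLIT k V n N D (l i).1 (l i).2 hk).2.1
  choose ρ hρ' using hρ
  refine ⟨ρ, fun X b hfX => le_trans (Nat.mul_le_mul_left 100 ?_) (hl2 X)⟩
  refine Finset.card_le_card fun i hi => ?_
  rw [Finset.mem_filter] at hi ⊢
  refine ⟨Finset.mem_univ _, fun h => hi.2 ?_⟩
  rw [hρ']
  exact (hG X (l i)).1 h b hfX

end Pool.Agent.H34.RK
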