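import Pool.Agent.H70.RK.T2

/-!
# CLH: a formula does not see the answers
-/

set_option autoImplicit false

namespace Pool.Agent.H34.RK

open Finset Filter Pool.Agent.H6.NB Pool.Agent.H70.OQ Pool.Agent.H78.XQ Pool.Agent.H70.RK

section

variable {k n N : ℕ} (V : ℕ → Machine k) (D : Dat k) (X : (Fin n → Bool) → Bool)
  (W : (List Bool → Bool) → Bool) (b : Bool)

open Classical in
/-- the probability that the value is `b` -/
noncomputable def clE (N : ℕ) (V : ℕ → Machine k) (D : Dat k) (X : (Fin n → Bool) → Bool)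
    (W : (List Bool → Bool) → Bool) (b : Bool) (L L' : ℕ) : ℝ :=
  ∑ a : Ad k n N, ∑ g : Ar k n N, ∑ P : Bl k n N,
    1 / ((Fintype.card (Ad k n N) : ℝ) * Fintype.card (Ar k n N)) * (∏ p, mw L a p (P p)) *
      (if W (lev V (ina n N D X a g P) L') = b then 1 else 0)

theorem clh_mw_nonneg (hMAS : T_MAS) (L : ℕ) (a : Ad k n N) (p : Bi k n N) (c : CB (hl p)) :
    0 ≤ mw L a p c := by
  unfold mw
  split_ifs
  · exact ((hMAS _ _ (rns (hl p)) _).2.2 _).1 c
  · exact (hMAS _ _ 0 _).1 c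

theorem clh_mw_sum (hMAS : T_MAS) (L : ℕ) (a : Ad k n N) (p : Bi k n N) :
    ∑ c, mw L a p c ≤ 1 := by
  unfold mw
  split_ifs
  · exact ((hMAS _ _ (rns (hl p)) _).2.2 _).2
  · exact (hMAS _ _ 0 _).2.1.le

theorem clh_prod_nonneg (hMAS : T_MAS) (L : ℕ) (a : Ad k n N) (P : Bl k n N) :
    0 ≤ ∏ p, mw L a p (P p) :=
  Finset.prod_nonneg fun p _ => clh_mw_nonneg hMAS L a p (P p)

theorem clh_prod_sum (hMAS : T_MAS) (L : ℕ) (a : Ad k n N) :
    ∑ P : Bl k n N, ∏ p, mw L a p (P p) ≤ 1 := by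
  have h1 : ∑ P : Bl k n N, ∏ p, mw L a p (P p) = ∏ p : Bi k n N, ∑ c, mw L a p c :=
    (Fintype.prod_sum fun (p : Bi k n N) c => mw L a p c).symm
  rw [h1]
  exact Finset.prod_le_one (fun p _ => Finset.sum_nonneg fun c _ => clh_mw_nonneg hMAS L a p c)
    fun p _ => clh_mw_sum hMAS L a p

theorem clh_avg_le (x : ℝ) (h : Ad k n N → Ar k n N → ℝ) (hh : ∀ a g, h a g ≤ x) (hx : 0 ≤ x) :
    ∑ a : Ad k n N, ∑ g : Ar k n N,
      1 / ((Fintype.card (Ad k n N) : ℝ) * Fintype.card (Ar k n N)) * h a g ≤ x := by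
  have h1 : ∑ a : Ad k n N, ∑ g : Ar k n N,
      1 / ((Fintype.card (Ad k n N) : ℝ) * Fintype.card (Ar k n N)) * h a g ≤
      ∑ _a : Ad k n N, ∑ _g : Ar k n N,
        1 / ((Fintype.card (Ad k n N) : ℝ) * Fintype.card (Ar k n N)) * x :=
    Finset.sum_le_sum fun a _ => Finset.sum_le_sum fun g _ =>
      mul_le_mul_of_nonneg_left (hh a g) (by positivity)
  refine h1.trans ?_
  rw [Finset.sum_const, Finset.sum_const, Finset.card_univ, Finset.card_univ, nsmul_eq_mul,
    nsmul_eq_mul]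
  have h2 : (Fintype.card (Ad k n N) : ℝ) * ((Fintype.card (Ar k n N) : ℝ) *
      (1 / ((Fintype.card (Ad k n N) : ℝ) * Fintype.card (Ar k n N)) * x)) =
      (((Fintype.card (Ad k n N) : ℝ) * Fintype.card (Ar k n N)) /
        ((Fintype.card (Ad k n N) : ℝ) * Fintype.card (Ar k n N))) * x := by ring
  rw [h2]
  exact mul_le_of_le_one_left hx (div_self_le_one _)

theorem clh_swap {α β γ : Type} [Fintype α] [Fintype β] [Fintype γ] (f : α → β → γ → ℝ) :
    ∑ a, ∑ g, ∑ P, f a g P = ∑ P, ∑ a, ∑ g, f a g P := by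
  calc ∑ a, ∑ g, ∑ P, f a g P = ∑ a, ∑ P, ∑ g, f a g P :=
        Finset.sum_congr rfl fun a _ => Finset.sum_comm
    _ = _ := Finset.sum_comm

/-- the step STB -/
theorem clh_stb (hSTB : Pool.Agent.H70.RK.T_STB) (hMAS : T_MAS) (hk : 1 ≤ k) (L : ℕ)
    (hnL : n ≤ L) (hLN : L ≤ N) :
    clE N V D X W b L L - (∑ s : Li n N, if s.1.length = L then (1 / 4 : ℝ) ^ L else 0) ≤
      clE N V D X W b L (L + 1) := by
  classical
  set cc : ℝ := 1 / ((Fintype.card (Ad k n N) : ℝ) * Fintype.card (Ar k n N)) with hcc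
  have hcc0 : 0 ≤ cc := by positivity
  set ε : ℝ := ∑ s : Li n N, if s.1.length = L then (1 / 4 : ℝ) ^ L else 0 with hε
  have hε0 : 0 ≤ ε := Finset.sum_nonneg fun s _ => by split_ifs <;> positivity
  have hstep : ∀ P : Bl k n N,
      ∑ a : Ad k n N, ∑ g : Ar k n N, (cc * ∏ p, mw L a p (P p)) *
        (if W (lev V (ina n N D X a g P) L) = b then 1 else 0) -
      ε * ∑ a : Ad k n N, ∑ _g : Ar k n N, (cc * ∏ p, mw L a p (P p)) ≤
      ∑ a : Ad k n N, ∑ g : Ar k n N, (cc * ∏ p, mw L a p (P p)) *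
        (if W (lev V (ina n N D X a g P) (L + 1)) = b then 1 else 0) := by
    intro P
    refine hSTB k V n N L D X P (fun O => if W O = b then 1 else 0)
      (fun a => cc * ∏ p, mw L a p (P p)) hk hnL hLN (fun O => ?_)
      (fun a => mul_nonneg hcc0 (clh_prod_nonneg hMAS L a P)) (fun a a' haa => ?_)
    · split_ifs <;> norm_num
    · refine congrArg (fun y => cc * y) (Finset.prod_congr rfl fun p _ => ?_)
      unfold mw
      by_cases hp : p.1.1.length < L
      · rw [if_pos hp, if_pos hp, haa p.1 (by omega)]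
      · rw [if_neg hp, if_neg hp]
  have hswap : ∀ L' : ℕ, clE N V D X W b L L' = ∑ P : Bl k n N, ∑ a : Ad k n N, ∑ g : Ar k n N,
      (cc * ∏ p, mw L a p (P p)) *
        (if W (lev V (ina n N D X a g P) L') = b then 1 else 0) := by
    intro L'
    exact clh_swap fun (a : Ad k n N) (g : Ar k n N) (P : Bl k n N) =>
      (cc * ∏ p, mw L a p (P p)) * (if W (lev V (ina n N D X a g P) L') = b then 1 else 0)
  have htot : ∑ P : Bl k n N, ∑ a : Ad k n N, ∑ _g : Ar k n N, (cc * ∏ p, mw L a p (P p)) ≤ 1 := by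
    rw [← clh_swap fun (a : Ad k n N) (_ : Ar k n N) (P : Bl k n N) => cc * ∏ p, mw L a p (P p)]
    have h1 : ∑ a : Ad k n N, ∑ _g : Ar k n N, ∑ P : Bl k n N, cc * ∏ p, mw L a p (P p) =
        ∑ a : Ad k n N, ∑ _g : Ar k n N, cc * ∑ P : Bl k n N, ∏ p, mw L a p (P p) :=
      Finset.sum_congr rfl fun a _ => Finset.sum_congr rfl fun g _ => (Finset.mul_sum _ _ _).symm
    rw [h1]
    exact clh_avg_le 1 (fun a _ => ∑ P : Bl k n N, ∏ p, mw L a p (P p))
      (fun a _ => clh_prod_sum hMAS L a) zero_le_one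
  have hsum := Finset.sum_le_sum fun (P : Bl k n N) (_ : P ∈ univ) => hstep P
  rw [Finset.sum_sub_distrib, ← Finset.mul_sum, ← hswap, ← hswap] at hsum
  have h2 := mul_le_mul_of_nonneg_left htot hε0
  linarith

/-- the step STA -/
theorem clh_sta (hSTA : Pool.Agent.H70.RK.T_STA) (hk : 1 ≤ k) (L d m : ℕ)
    (hnL : n ≤ L) (hLN : L ≤ N) (hW : Ac d m W) (hd : d ≤ n) (hm : m ≤ 2 ^ (n + 20) ^ 2) :
    clE N V D X W b L (L + 1) -
      (∑ p : Bi k n N, if p.1.1.length = L then (1 / 8 : ℝ) ^ (p.1.1.length + 20) else 0) ≤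
      clE N V D X W b (L + 1) (L + 1) := by
  classical
  set cc : ℝ := 1 / ((Fintype.card (Ad k n N) : ℝ) * Fintype.card (Ar k n N)) with hcc
  have hcc0 : 0 ≤ cc := by positivity
  set δ : ℝ := ∑ p : Bi k n N, if p.1.1.length = L then (1 / 8 : ℝ) ^ (p.1.1.length + 20) else 0
    with hδ
  have hδ0 : 0 ≤ δ := Finset.sum_nonneg fun s _ => by split_ifs <;> positivity
  have hE : ∀ L' : ℕ, clE N V D X W b L' (L + 1) = ∑ a : Ad k n N, ∑ g : Ar k n N,
      cc * ∑ P : Bl k n N, (∏ p, mw L' a p (P p)) *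
        (if W (lev V (ina n N D X a g P) (L + 1)) = b then 1 else 0) := by
    intro L'
    unfold clE
    refine Finset.sum_congr rfl fun a _ => Finset.sum_congr rfl fun g _ => ?_
    rw [Finset.mul_sum]
    exact Finset.sum_congr rfl fun P _ => mul_assoc _ _ _
  have h1 : ∀ (a : Ad k n N) (g : Ar k n N),
      (∑ P : Bl k n N, (∏ p, mw L a p (P p)) *
        (if W (lev V (ina n N D X a g P) (L + 1)) = b then 1 else 0)) -
      (∑ P : Bl k n N, (∏ p, mw (L + 1) a p (P p)) *
        (if W (lev V (ina n N D X a g P) (L + 1)) = b then 1 else 0)) ≤ δ := by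
    intro a g
    have h2 := hSTA k d m V n N L D X a g W b hk hnL hLN hW hd hm
    linarith
  have h3 := clh_avg_le δ _ h1 hδ0
  rw [hE L, hE (L + 1)]
  have h4 : ∑ a : Ad k n N, ∑ g : Ar k n N,
      cc * ((∑ P : Bl k n N, (∏ p, mw L a p (P p)) *
        (if W (lev V (ina n N D X a g P) (L + 1)) = b then 1 else 0)) -
      (∑ P : Bl k n N, (∏ p, mw (L + 1) a p (P p)) *
        (if W (lev V (ina n N D X a g P) (L + 1)) = b then 1 else 0))) =
      (∑ a : Ad k n N, ∑ g : Ar k n N, cc * ∑ P : Bl k n N, (∏ p, mw L a p (P p)) *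
        (if W (lev V (ina n N D X a g P) (L + 1)) = b then 1 else 0)) -
      ∑ a : Ad k n N, ∑ g : Ar k n N, cc * ∑ P : Bl k n N, (∏ p, mw (L + 1) a p (P p)) *
        (if W (lev V (ina n N D X a g P) (L + 1)) = b then 1 else 0) := by
    rw [← Finset.sum_sub_distrib]
    refine Finset.sum_congr rfl fun a _ => ?_
    rw [← Finset.sum_sub_distrib]
    exact Finset.sum_congr rfl fun g _ => mul_sub _ _ _
  rw [h4] at h3
  linarith

/-- all steps -/
theorem clh_ind (hSTA : Pool.Agent.H70.RK.T_STA) (hSTB : Pool.Agent.H70.RK.T_STB) (hMAS : T_MAS)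
    (hk : 1 ≤ k) (d m : ℕ) (hW : Ac d m W) (hd : d ≤ n) (hm : m ≤ 2 ^ (n + 20) ^ 2) (i : ℕ)
    (hi : n + i ≤ N + 1) :
    clE N V D X W b n n - ((∑ p : Bi k n N, if p.1.1.length < n + i then
        (1 / 8 : ℝ) ^ (p.1.1.length + 20) else 0) +
      ∑ s : Li n N, if s.1.length < n + i then (1 / 4 : ℝ) ^ s.1.length else 0) ≤
      clE N V D X W b (n + i) (n + i) := by
  classical
  induction i with
  | zero =>
    have h1 : (∑ p : Bi k n N, if p.1.1.length < n + 0 then
        (1 / 8 : ℝ) ^ (p.1.1.length + 20) else 0) = 0 :=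
      Finset.sum_eq_zero fun p _ => if_neg (by have := p.1.2.1; omega)
    have h2 : (∑ s : Li n N, if s.1.length < n + 0 then (1 / 4 : ℝ) ^ s.1.length else 0) = 0 :=
      Finset.sum_eq_zero fun s _ => if_neg (by have := s.2.1; omega)
    rw [h1, h2]
    simp
  | succ i ih =>
    have ih' := ih (by omega)
    have h1 := clh_stb (N := N) V D X W b hSTB hMAS hk (n + i) (by omega) (by omega)
    have h2 := clh_sta (N := N) V D X W b hSTA hk (n + i) d m (by omega) (by omega) hW hd hm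
    have h3 : (∑ p : Bi k n N, if p.1.1.length < n + (i + 1) then
        (1 / 8 : ℝ) ^ (p.1.1.length + 20) else 0) =
        (∑ p : Bi k n N, if p.1.1.length < n + i then (1 / 8 : ℝ) ^ (p.1.1.length + 20) else 0) +
        ∑ p : Bi k n N, if p.1.1.length = n + i then (1 / 8 : ℝ) ^ (p.1.1.length + 20) else 0 := by
      rw [← Finset.sum_add_distrib]
      refine Finset.sum_congr rfl fun p _ => ?_
      rcases lt_trichotomy p.1.1.length (n + i) with h | h | h
      · rw [if_pos (by omega), if_pos h, if_neg (by omega), add_zero]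
      · rw [if_pos (by omega), if_neg (by omega), if_pos h, zero_add]
      · rw [if_neg (by omega), if_neg (by omega), if_neg (by omega), add_zero]
    have h4 : (∑ s : Li n N, if s.1.length < n + (i + 1) then (1 / 4 : ℝ) ^ s.1.length else 0) =
        (∑ s : Li n N, if s.1.length < n + i then (1 / 4 : ℝ) ^ s.1.length else 0) +
        ∑ s : Li n N, if s.1.length = n + i then (1 / 4 : ℝ) ^ (n + i) else 0 := by
      rw [← Finset.sum_add_distrib]
      refine Finset.sum_congr rfl fun s _ => ?_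
      rcases lt_trichotomy s.1.length (n + i) with h | h | h
      · rw [if_pos (by omega), if_pos h, if_neg (by omega), add_zero]
      · rw [if_pos (by omega), if_neg (by omega), if_pos h, zero_add, h]
      · rw [if_neg (by omega), if_neg (by omega), if_neg (by omega), add_zero]
    rw [h3, h4]
    have e : n + (i + 1) = n + i + 1 := by omega
    rw [e]
    linarith

end

theorem pf_CLH (hSTA : Pool.Agent.H70.RK.T_STA) (hSTB : Pool.Agent.H70.RK.T_STB)
    (hPLN : Pool.Agent.H70.RK.T_PLN) (hMAS : T_MAS) : Pool.Agent.H70.RK.T_CLH := by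
  classical
  intro k d m V n N D X W b hk hnN hmN hW hd hm
  have h1 := clh_ind (N := N) V D X W b hSTA hSTB hMAS hk d m hW hd hm (N + 1 - n) (by omega)
  have e : n + (N + 1 - n) = N + 1 := by omega
  rw [e] at h1
  have h2 : (∑ p : Bi k n N, if p.1.1.length < N + 1 then
      (1 / 8 : ℝ) ^ (p.1.1.length + 20) else 0) =
      ∑ p : Bi k n N, (1 / 8 : ℝ) ^ (p.1.1.length + 20) :=
    Finset.sum_congr rfl fun p _ => if_pos (by have := p.1.2.2; omega)
  have h3 : (∑ s : Li n N, if s.1.length < N + 1 then (1 / 4 : ℝ) ^ s.1.length else 0) =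
      ∑ s : Li n N, (1 / 4 : ℝ) ^ s.1.length :=
    Finset.sum_congr rfl fun s _ => if_pos (by have := s.2.2; omega)
  rw [h2, h3] at h1
  obtain ⟨pW, -, hpW⟩ := hW
  have h4 : clE N V D X W b (N + 1) (N + 1) = ∑ a : Ad k n N, ∑ g : Ar k n N, ∑ P : Bl k n N,
      1 / ((Fintype.card (Ad k n N) : ℝ) * Fintype.card (Ar k n N)) *
      (∏ p, mB (qs (hl p)) (hl p).length (rns (hl p)) (wln (hl p)) (a p.1 p.2.1 p.2.2) (P p)) *
      (if W (orc V (ina n N D X a g P)) = b then 1 else 0) := by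
    unfold clE
    refine Finset.sum_congr rfl fun a _ => Finset.sum_congr rfl fun g _ =>
      Finset.sum_congr rfl fun P _ => ?_
    have h5 : (∏ p, mw (N + 1) a p (P p)) = ∏ p : Bi k n N,
        mB (qs (hl p)) (hl p).length (rns (hl p)) (wln (hl p)) (a p.1 p.2.1 p.2.2) (P p) := by
      refine Finset.prod_congr rfl fun p _ => ?_
      unfold mw
      rw [if_pos (by have := p.1.2.2; omega)]
    have h6 : W (lev V (ina n N D X a g P) (N + 1)) = W (orc V (ina n N D X a g P)) := by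
      rw [hpW, hpW]
      refine congrArg pW (funext fun w => ?_)
      exact (hPLN k V n N N D X a g P hk hnN le_rfl).2.1 w.1 (w.2.trans hmN)
    rw [h5, h6]
  have h7 : clE N V D X W b n n = ∑ g : Ar k n N, ∑ P : Bl k n N, 1 / (Fintype.card (Ar k n N) : ℝ) *
      (∏ p, m0 (qs (hl p)) (hl p).length (wln (hl p)) (P p)) *
      (if W (lbv V D X g P) = b then 1 else 0) := by
    unfold clE
    have h8 : ∀ a : Ad k n N, (∑ g : Ar k n N, ∑ P : Bl k n N,
        1 / ((Fintype.card (Ad k n N) : ℝ) * Fintype.card (Ar k n N)) * (∏ p, mw n a p (P p)) *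
          (if W (lev V (ina n N D X a g P) n) = b then 1 else 0)) =
        1 / (Fintype.card (Ad k n N) : ℝ) * ∑ g : Ar k n N, ∑ P : Bl k n N,
          1 / (Fintype.card (Ar k n N) : ℝ) *
          (∏ p, m0 (qs (hl p)) (hl p).length (wln (hl p)) (P p)) *
          (if W (lbv V D X g P) = b then 1 else 0) := by
      intro a
      rw [Finset.mul_sum]
      refine Finset.sum_congr rfl fun g _ => ?_
      rw [Finset.mul_sum]
      refine Finset.sum_congr rfl fun P _ => ?_
      have h5 : (∏ p, mw n a p (P p)) = ∏ p : Bi k n N,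
          m0 (qs (hl p)) (hl p).length (wln (hl p)) (P p) := by
        refine Finset.prod_congr rfl fun p _ => ?_
        unfold mw
        rw [if_neg (by have := p.1.2.1; omega)]
      have h6 : lev V (ina n N D X a g P) n = lbv V D X g P :=
        funext (hPLN k V n N n D X a g P hk le_rfl hnN).1
      rw [h5, h6]
      ring
    rw [Finset.sum_congr rfl fun a _ => h8 a, Finset.sum_const, Finset.card_univ, nsmul_eq_mul,
      ← mul_assoc]
    have h9 : (Fintype.card (Ad k n N) : ℝ) ≠ 0 := by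
      have : 0 < Fintype.card (Ad k n N) := Fintype.card_pos_iff.2 ⟨fun _ _ _ => false⟩
      exact_mod_cast this.ne'
    rw [mul_one_div_cancel h9, one_mul]
  rw [h4, h7] at h1
  exact h1

end Pool.Agent.H34.RK
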