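import Pool.Agent.H70.RK.T2

/-!
# STA: the blocks of the instances of one length can be replaced by random blocks
-/

set_option autoImplicit false

namespace Pool.Agent.H34.RK

open Finset Filter Pool.Agent.H6.NB Pool.Agent.H70.OQ Pool.Agent.H78.XQ Pool.Agent.H70.RK

/-- Constants and variables can be substituted in a formula. -/
theorem sta_sub {V Y : Type} {S S' : ℕ} (hS : S ≤ S') (bv : (Y → Bool) → V → Bool) (hbv : Lt bv) :
    ∀ (d : ℕ) (p : (V → Bool) → Bool), Cl V S d p → Cl Y S' d fun y => p (bv y)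
  | 0, p, h => by
    rcases h with ⟨b, hb⟩ | ⟨v, hv⟩
    · exact Or.inl ⟨b, fun y => hb _⟩
    · rcases hbv v with ⟨b, hb⟩ | ⟨u, hu⟩
      · exact Or.inl ⟨b, fun y => (hv _).trans (hb y)⟩
      · exact Or.inr ⟨u, fun y => (hv _).trans (hu y)⟩
  | d + 1, p, h => by
    obtain ⟨m, g, b, hm, hg, hp⟩ := h
    exact ⟨m, fun i y => g i (bv y), b, hm.trans hS, fun i => sta_sub hS bv hbv d (g i) (hg i),
      fun y => hp _⟩

/-- The indicator of a value of a formula under a substitution. -/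
theorem sta_cl (hCLB : Pool.Agent.H6.NB.T_CLB) {Y : Type} {S d m : ℕ}
    {W : (List Bool → Bool) → Bool} (hW : Ac d m W) (hmS : 2 ^ m ≤ S) (h2S : 2 ≤ S)
    (bv : (Y → Bool) → List Bool → Bool) (hbv : Lt bv) (b : Bool) :
    Cl Y S (d + 1) fun y => decide (W (bv y) = b) := by
  obtain ⟨p, hp, hW⟩ := hW
  have h1 : Cl Y S d fun y => p fun w => bv y w.1 :=
    sta_sub hmS (fun y (w : {w : List Bool // w.length ≤ m}) => bv y w.1) (fun w => hbv w.1) d p hp
  have h2 : Cl Y S d fun y => W (bv y) := by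
    have h3 : (fun y => W (bv y)) = fun y => p fun w => bv y w.1 := funext fun y => hW _
    rw [h3]
    exact h1
  refine (hCLB Y S h2S).2.2.1 d Unit (fun _ y => W (bv y)) (fun _ => b) _
    (by rw [Fintype.card_unit]; omega) (fun _ => h2) fun y => ?_
  rw [decide_eq_true_iff]
  exact ⟨fun h => ⟨(), h⟩, fun ⟨_, h⟩ => h⟩

theorem sta_bi {p : Prop} [Decidable p] : bi (decide p) = if p then 1 else 0 := by
  unfold bi
  by_cases h : p
  · rw [if_pos (decide_eq_true h), if_pos h]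
  · rw [if_neg h, if_neg (by
      rw [decide_eq_true_iff]
      exact h)]

/-- One block. -/
theorem sta_one (hBLX : T_BLX) (hMAS : T_MAS) {r l q R n : ℕ} (hSz : Sz r l q R n) (b : Bool)
    (B : ((Fin (2 * l) → Bool) → VV q → Bool) × ((Fin n → Bool) → Bool) → Bool)
    (h1 : ∀ P u h, Cl (VV q) (2 ^ 2 ^ r ^ 2) (r + 2) fun c => B (Function.update P u c, h))
    (h2 : ∀ P, Cl (Fin n → Bool) (2 ^ 2 ^ r ^ 2) (r + 2) fun h => B (P, h)) :
    ∑ c, m0 q l n c * bi (B c) - (1 / 8) ^ r ≤ ∑ c, mB q l R n b c * bi (B c) := by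
  have h3 := hBLX r l q R n hSz b B h1 h2
  obtain ⟨h4, h5, -⟩ := hMAS q l R n
  have hx : ∑ c, m0 q l n c * bi (B c) ≤ 1 := by
    refine le_trans ?_ h5.le
    refine sum_le_sum fun c _ => ?_
    unfold bi
    split_ifs
    · rw [mul_one]
    · rw [mul_zero]
      exact h4 c
  obtain ⟨e, he⟩ : ∃ e : ℝ, e = (1 / 8) ^ r := ⟨_, rfl⟩
  have he0 : 0 < e := by
    rw [he]
    positivity
  rw [← he] at h3 ⊢
  have he2 : e / (4 * 2 ^ 2 ^ r) ≤ e / 4 := by
    refine div_le_div_of_nonneg_left he0.le (by norm_num) ?_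
    have : (1 : ℝ) ≤ 2 ^ 2 ^ r := one_le_pow₀ (by norm_num)
    linarith
  have hx2 : e / 4 * ∑ c, m0 q l n c * bi (B c) ≤ e / 4 * 1 :=
    mul_le_mul_of_nonneg_left hx (by linarith)
  have hx3 : (1 - e / 4) * ∑ c, m0 q l n c * bi (B c) =
      ∑ c, m0 q l n c * bi (B c) - e / 4 * ∑ c, m0 q l n c * bi (B c) := by ring
  rw [hx3] at h3
  linarith [h3, hx2, he2]

theorem pf_STA (hHYC : T_HYC) (hBLX : T_BLX) (hMAS : T_MAS) (hCLB : Pool.Agent.H6.NB.T_CLB)
    (hSTR : Pool.Agent.H70.RK.T_STR) (hPLN : T_PLN) : Pool.Agent.H70.RK.T_STA := by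
  classical
  intro k d m V n N L D X a g W b hk hnL hLN hW hd hm
  have hmw : ∀ (L : ℕ) (p : Bi k n N), (∀ c, 0 ≤ mw L a p c) ∧ ∑ c, mw L a p c ≤ 1 := by
    intro L p
    unfold mw
    by_cases h : p.1.1.length < L
    · simp only [if_pos h]
      exact (hMAS _ _ _ _).2.2 _
    · simp only [if_neg h]
      exact ⟨(hMAS _ _ 0 _).1, (hMAS _ _ 0 _).2.1.le⟩
  refine hHYC (Bi k n N) (fun p => CB (hl p)) (fun p c => mw L a p c)
    (fun p c => mw (L + 1) a p c)
    (fun P => if W (lev V (ina n N D X a g P) (L + 1)) = b then 1 else 0)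
    (fun p => if p.1.1.length = L then (1 / 8 : ℝ) ^ (p.1.1.length + 20) else 0)
    (fun p => (hmw L p).1) (fun p => (hmw L p).2) (fun p => (hmw (L + 1) p).1)
    (fun p => (hmw (L + 1) p).2) (fun P => by split_ifs <;> norm_num)
    (fun p => by
      split_ifs
      · positivity
      · exact le_rfl) ?_
  intro p P
  by_cases hp : p.1.1.length = L
  swap
  · have h1 : ∀ c, mw L a p c = mw (L + 1) a p c := by
      intro c
      unfold mw
      by_cases h : p.1.1.length < L
      · rw [if_pos h, if_pos (by omega)]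
      · rw [if_neg h, if_neg (by omega)]
    rw [if_neg hp, sub_zero]
    exact (Finset.sum_congr rfl fun c _ => by rw [h1 c]).le
  rw [if_pos hp]
  set r := p.1.1.length + 20 + k with hr
  have hSz : Sz r (hl p).length (qs (hl p)) (rns (hl p)) (wln (hl p)) :=
    (hSTR k hk).2.2.2.2 ⟨p.1.1, p.2⟩
  have hnr : n + 20 ≤ r := by omega
  have hd2 : d + 1 ≤ r + 2 := by omega
  have hmS : 2 ^ m ≤ 2 ^ 2 ^ r ^ 2 := Nat.pow_le_pow_right (by norm_num)
    (hm.trans (Nat.pow_le_pow_right (by norm_num) (Nat.pow_le_pow_left hnr 2)))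
  have h2Z : 2 ≤ 2 ^ 2 ^ r ^ 2 := by
    calc 2 = 2 ^ 1 := rfl
      _ ≤ 2 ^ 2 ^ r ^ 2 := Nat.pow_le_pow_right (by norm_num) Nat.one_le_two_pow
  set B : CB (hl p) → Bool := fun c =>
    decide (W (lev V (ina n N D X a g (Function.update P p c)) (L + 1)) = b) with hB
  have hc1 : ∀ P' u h', Cl (VV (qs (hl p))) (2 ^ 2 ^ r ^ 2) (r + 2)
      fun c => B (Function.update P' u c, h') := by
    intro P' u h'
    refine (hCLB _ _ h2Z).2.1 (d + 1) (r + 2) _ hd2 (sta_cl hCLB hW hmS h2Z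
      (fun c => lev V (ina n N D X a g (Function.update P p (Function.update P' u c, h'))) (L + 1))
      ?_ b)
    have h1 := ((hPLN k V n N L D X a g (Function.update P p (P', h')) hk hnL hLN).2.2.2.2 p hp).1 u
    simp only [Function.update_self, Function.update_idem] at h1
    exact h1
  have hc2 : ∀ P', Cl (Fin (wln (hl p)) → Bool) (2 ^ 2 ^ r ^ 2) (r + 2) fun h' => B (P', h') := by
    intro P'
    refine (hCLB _ _ h2Z).2.1 (d + 1) (r + 2) _ hd2 (sta_cl hCLB hW hmS h2Z
      (fun h' => lev V (ina n N D X a g (Function.update P p (P', h'))) (L + 1)) ?_ b)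
    have h1 := ((hPLN k V n N L D X a g (Function.update P p (P', fun _ => false)) hk hnL
      hLN).2.2.2.2 p hp).2
    simp only [Function.update_self, Function.update_idem] at h1
    exact h1
  have h3 := sta_one hBLX hMAS hSz (a p.1 p.2.1 p.2.2) B hc1 hc2
  have hbi : ∀ c, bi (B c) =
      if W (lev V (ina n N D X a g (Function.update P p c)) (L + 1)) = b then 1 else 0 :=
    fun c => sta_bi
  simp only [hbi] at h3
  have hu : ∀ c, mw L a p c = m0 (qs (hl p)) (hl p).length (wln (hl p)) c := by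
    intro c
    unfold mw
    rw [if_neg (by omega)]
  have hv : ∀ c, mw (L + 1) a p c =
      mB (qs (hl p)) (hl p).length (rns (hl p)) (wln (hl p)) (a p.1 p.2.1 p.2.2) c := by
    intro c
    unfold mw
    rw [if_pos (by omega)]
  simp only [hu, hv]
  have he3 : (1 / 8 : ℝ) ^ r ≤ (1 / 8) ^ (p.1.1.length + 20) :=
    pow_le_pow_of_le_one (by norm_num) (by norm_num) (by omega)
  exact (sub_le_sub_left he3 _).trans h3

end Pool.Agent.H34.RK
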