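import Pool.Agent.H92.RK.Targets

set_option autoImplicit false

open MeasureTheory Set Pool.Agent.H92.RK
open scoped ENNReal

namespace Pool.Agent.H34.RK.UP2

/-- the angular integral -/
theorem ang (A B D : ℝ) :
    ∫ θ in (-Real.pi)..Real.pi, (A + B * Real.cos θ + D * Real.sin θ) ^ 2 =
      2 * Real.pi * A ^ 2 + Real.pi * (B ^ 2 + D ^ 2) := by
  have h1 : ∀ θ ∈ uIcc (-Real.pi) Real.pi, HasDerivAt (fun θ : ℝ =>
      (A ^ 2 + (B ^ 2 + D ^ 2) / 2) * θ + 2 * A * B * Real.sin θ - 2 * A * D * Real.cos θ +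
        (B ^ 2 - D ^ 2) / 2 * (Real.sin θ * Real.cos θ) - B * D * Real.cos θ ^ 2)
      ((A + B * Real.cos θ + D * Real.sin θ) ^ 2) θ := by
    intro θ _
    have hs := Real.hasDerivAt_sin θ
    have hc := Real.hasDerivAt_cos θ
    have h2 := (((((hasDerivAt_id θ).const_mul (A ^ 2 + (B ^ 2 + D ^ 2) / 2)).add
      (hs.const_mul (2 * A * B))).sub (hc.const_mul (2 * A * D))).add
      ((hs.mul hc).const_mul ((B ^ 2 - D ^ 2) / 2))).sub ((hc.pow 2).const_mul (B * D))
    refine h2.congr_deriv ?_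
    have h3 := Real.sin_sq_add_cos_sq θ
    simp only [Nat.cast_ofNat]
    have h4 : Real.sin θ ^ 2 = 1 - Real.cos θ ^ 2 := by linarith
    ring_nf
    rw [h4]
    ring
  rw [intervalIntegral.integral_eq_sub_of_hasDerivAt h1
    (Continuous.intervalIntegrable (by fun_prop) _ _)]
  simp only [Real.sin_neg, Real.cos_neg, Real.sin_pi, Real.cos_pi]
  ring

theorem ang2 (B D : ℝ) :
    ∫ θ in (-Real.pi)..Real.pi, (-(B * Real.sin θ) + D * Real.cos θ) ^ 2 =
      Real.pi * (B ^ 2 + D ^ 2) := by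
  have h := ang 0 D (-B)
  have e : ∀ θ : ℝ, (-(B * Real.sin θ) + D * Real.cos θ) ^ 2 =
      (0 + D * Real.cos θ + -B * Real.sin θ) ^ 2 := fun θ => by ring
  simp_rw [e]
  rw [h]
  ring

/-- an integral in polar coordinates -/
theorem polar (hLPO : T_LPO) (h : E2 → ℝ) (hc : Continuous h) (h0 : ∀ z, 0 ≤ h z)
    (a b X Y : ℝ → ℝ) (IX IY : ℝ) (ha : Continuous a) (hb : Continuous b) (hX : Continuous X)
    (hY : Continuous Y) (ha1 : ∀ r, 1 < r → a r = 0) (hb1 : ∀ r, 1 < r → b r = 0)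
    (hIX : ∫ θ in (-Real.pi)..Real.pi, X θ = IX) (hIY : ∫ θ in (-Real.pi)..Real.pi, Y θ = IY)
    (ha0 : ∀ r, 0 < r → 0 ≤ a r) (hb0 : ∀ r, 0 < r → 0 ≤ b r) (hX0 : ∀ θ, 0 ≤ X θ)
    (hY0 : ∀ θ, 0 ≤ Y θ)
    (hh : ∀ r, 0 < r → ∀ θ, h (pt r θ) * r = a r * X θ + b r * Y θ) :
    ∫ z, h z = ∫ r in (0 : ℝ)..1, (a r * IX + b r * IY) := by
  have hpi : -Real.pi ≤ Real.pi := by linarith [Real.pi_pos]
  have hIX0 : 0 ≤ IX := by
    rw [← hIX]
    exact intervalIntegral.integral_nonneg hpi (fun θ _ => hX0 θ)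
  have hIY0 : 0 ≤ IY := by
    rw [← hIY]
    exact intervalIntegral.integral_nonneg hpi (fun θ _ => hY0 θ)
  have hm : Measurable (fun z => ENNReal.ofReal (h z)) := ENNReal.measurable_ofReal.comp hc.measurable
  have h1 : ∀ r ∈ Ioi (0 : ℝ), ∫⁻ θ in Ioo (-Real.pi) Real.pi,
      ENNReal.ofReal (h (pt r θ)) * ENNReal.ofReal r = ENNReal.ofReal (a r * IX + b r * IY) := by
    intro r hr
    have hr0 : 0 < r := hr
    have e1 : ∀ θ, ENNReal.ofReal (h (pt r θ)) * ENNReal.ofReal r =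
        ENNReal.ofReal (a r * X θ + b r * Y θ) := by
      intro θ
      rw [← ENNReal.ofReal_mul (h0 _), hh r hr0 θ]
    simp_rw [e1]
    have hcont : Continuous (fun θ => a r * X θ + b r * Y θ) := by fun_prop
    rw [← ofReal_integral_eq_lintegral_ofReal]
    · congr 1
      rw [← integral_Ioc_eq_integral_Ioo, ← intervalIntegral.integral_of_le hpi,
        intervalIntegral.integral_add, intervalIntegral.integral_const_mul,
        intervalIntegral.integral_const_mul, hIX, hIY]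
      · exact (hX.const_mul (a r)).intervalIntegrable _ _
      · exact (hY.const_mul (b r)).intervalIntegrable _ _
    · exact (hcont.integrableOn_Icc).mono_set Ioo_subset_Icc_self
    · filter_upwards with θ
      exact add_nonneg (mul_nonneg (ha0 r hr0) (hX0 θ)) (mul_nonneg (hb0 r hr0) (hY0 θ))
  have h2 : ∫⁻ z, ENNReal.ofReal (h z) =
      ENNReal.ofReal (∫ r in (0 : ℝ)..1, (a r * IX + b r * IY)) := by
    rw [hLPO _ hm, setLIntegral_congr_fun measurableSet_Ioi h1, ← Ioc_union_Ioi_eq_Ioi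
      (zero_le_one (α := ℝ)), lintegral_union measurableSet_Ioi]
    · have h3 : ∫⁻ r in Ioi (1 : ℝ), ENNReal.ofReal (a r * IX + b r * IY) = 0 := by
        have h4 : ∀ r ∈ Ioi (1 : ℝ), ENNReal.ofReal (a r * IX + b r * IY) = 0 := by
          intro r hr
          rw [ha1 r hr, hb1 r hr]
          simp
        rw [setLIntegral_congr_fun measurableSet_Ioi h4]
        simp
      rw [h3, add_zero, intervalIntegral.integral_of_le zero_le_one,
        ofReal_integral_eq_lintegral_ofReal]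
      · have hcont : Continuous (fun r => a r * IX + b r * IY) := by fun_prop
        exact (hcont.integrableOn_Icc).mono_set Ioc_subset_Icc_self
      · filter_upwards [ae_restrict_mem measurableSet_Ioc] with r hr
        exact add_nonneg (mul_nonneg (ha0 r hr.1) hIX0) (mul_nonneg (hb0 r hr.1) hIY0)
    · rw [Set.disjoint_left]
      intro x hx hx'
      exact absurd hx.2 (not_le.2 hx')
  rw [integral_eq_lintegral_of_nonneg_ae (Filter.Eventually.of_forall h0)
    hc.aestronglyMeasurable, h2, ENNReal.toReal_ofReal]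
  refine intervalIntegral.integral_nonneg zero_le_one ?_
  intro r hr
  rcases hr.1.eq_or_lt with h5 | h5
  · have ha00 : 0 ≤ a 0 := by
      have h6 : (0 : ℝ) ∈ closure (Ioi (0 : ℝ)) := by rw [closure_Ioi]; exact self_mem_Ici
      have h7 : Ioi (0 : ℝ) ⊆ {r | 0 ≤ a r} := fun r hr => ha0 r hr
      exact closure_minimal h7 (isClosed_le continuous_const ha) h6
    have hb00 : 0 ≤ b 0 := by
      have h6 : (0 : ℝ) ∈ closure (Ioi (0 : ℝ)) := by rw [closure_Ioi]; exact self_mem_Ici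
      have h7 : Ioi (0 : ℝ) ⊆ {r | 0 ≤ b r} := fun r hr => hb0 r hr
      exact closure_minimal h7 (isClosed_le continuous_const hb) h6
    rw [← h5]
    exact add_nonneg (mul_nonneg ha00 hIX0) (mul_nonneg hb00 hIY0)
  · exact add_nonneg (mul_nonneg (ha0 r h5) hIX0) (mul_nonneg (hb0 r h5) hIY0)


/-! ### The gradient in polar coordinates -/

theorem pt_eq (r θ : ℝ) : pt r θ = r • pt 1 θ := by
  ext i
  fin_cases i <;> simp [pt]

/-- derivative along the ray -/
theorem hpr (r θ : ℝ) : HasDerivAt (fun s => pt s θ) (pt 1 θ) r := by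
  have h := (hasDerivAt_id r).smul_const (pt 1 θ)
  rw [one_smul] at h
  refine h.congr_of_eventuallyEq (Filter.Eventually.of_forall fun s => ?_)
  exact pt_eq s θ

/-- the angular unit vector -/
noncomputable def et (θ : ℝ) : E2 := !₂[-Real.sin θ, Real.cos θ]

theorem pt_eq2 (r θ : ℝ) :
    pt r θ = (r * Real.cos θ) • (!₂[1, 0] : E2) + (r * Real.sin θ) • (!₂[0, 1] : E2) := by
  ext i
  fin_cases i <;> simp [pt]

/-- derivative in the angle -/
theorem hpt (r θ : ℝ) : HasDerivAt (fun s => pt r s) (r • et θ) θ := by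
  have h := (((Real.hasDerivAt_cos θ).const_mul r).smul_const (!₂[1, 0] : E2)).add
    (((Real.hasDerivAt_sin θ).const_mul r).smul_const (!₂[0, 1] : E2))
  have e : (r * -Real.sin θ) • (!₂[1, 0] : E2) + (r * Real.cos θ) • (!₂[0, 1] : E2) =
      r • et θ := by
    ext i
    fin_cases i <;> simp [et]
  rw [e] at h
  refine h.congr_of_eventuallyEq (Filter.Eventually.of_forall fun s => ?_)
  exact pt_eq2 r s

/-- the norm of a functional -/
theorem nrm (L : E2 →L[ℝ] ℝ) (θ : ℝ) : ‖L‖ ^ 2 = L (pt 1 θ) ^ 2 + L (et θ) ^ 2 := by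
  obtain ⟨w, hw⟩ := (InnerProductSpace.toDual ℝ E2).surjective L
  have h1 : ‖L‖ = ‖w‖ := by rw [← hw]; exact (InnerProductSpace.toDual ℝ E2).norm_map w
  have h2 : ∀ v, L v = w 0 * v 0 + w 1 * v 1 := by
    intro v
    rw [← hw, InnerProductSpace.toDual_apply_apply, PiLp.inner_apply, Fin.sum_univ_two]
    simp [mul_comm]
  rw [h1, EuclideanSpace.norm_sq_eq, Fin.sum_univ_two, h2, h2]
  have h3 := Real.sin_sq_add_cos_sq θ
  simp only [pt, et, Real.norm_eq_abs, sq_abs]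
  simp
  linear_combination (-(w 0 ^ 2) - w 1 ^ 2) * h3

/-- the gradient of a function which is `v r * X θ` in polar coordinates -/
theorem grad (u : E2 → ℝ) (hu : Differentiable ℝ u) (v X : ℝ → ℝ) (v' X' r θ : ℝ) (hr : 0 < r)
    (hv : HasDerivAt v v' r) (hX : HasDerivAt X X' θ)
    (h : ∀ r, 0 < r → ∀ θ, u (pt r θ) = v r * X θ) :
    ‖fderiv ℝ u (pt r θ)‖ ^ 2 = (v' * X θ) ^ 2 + (v r * X' / r) ^ 2 := by
  have hd := (hu (pt r θ)).hasFDerivAt
  have h1 : HasDerivAt (fun s => u (pt s θ)) (fderiv ℝ u (pt r θ) (pt 1 θ)) r :=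
    hd.comp_hasDerivAt r (hpr r θ)
  have h2 : HasDerivAt (fun s => u (pt r s)) (fderiv ℝ u (pt r θ) (r • et θ)) θ :=
    hd.comp_hasDerivAt θ (hpt r θ)
  have h3 : HasDerivAt (fun s => u (pt s θ)) (v' * X θ) r := by
    refine (hv.mul_const (X θ)).congr_of_eventuallyEq ?_
    filter_upwards [lt_mem_nhds hr] with s hs
    exact h s hs θ
  have h4 : HasDerivAt (fun s => u (pt r s)) (v r * X') θ := by
    refine (hX.const_mul (v r)).congr_of_eventuallyEq ?_
    filter_upwards with s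
    exact h r hr s
  have e1 := h1.unique h3
  have e2 := h2.unique h4
  rw [map_smul, smul_eq_mul] at e2
  rw [nrm _ θ, e1]
  congr 2
  rw [← e2]
  field_simp

/-! ### The test functions -/

/-- the square of the norm -/
noncomputable def sq (z : E2) : ℝ := z 0 ^ 2 + z 1 ^ 2

theorem sq_pt (r θ : ℝ) : sq (pt r θ) = r ^ 2 := by
  have h3 := Real.sin_sq_add_cos_sq θ
  simp [sq, pt]
  linear_combination r ^ 2 * h3

/-- the test functions -/
noncomputable def uu (F : ℝ → ℝ) (A B D : ℝ) (z : E2) : ℝ :=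
  A * (F (sq z) / Real.sqrt (sq z)) + (B * z 0 + D * z 1) * (F (sq z) / sq z)

theorem uu_pt (F : ℝ → ℝ) (A B D r : ℝ) (hr : 0 < r) (θ : ℝ) :
    uu F A B D (pt r θ) = (r * (F (r ^ 2) / r ^ 2)) * (A + B * Real.cos θ + D * Real.sin θ) := by
  unfold uu
  rw [sq_pt, Real.sqrt_sq hr.le]
  simp [pt]
  field_simp
  ring

theorem smG (F : ℝ → ℝ) (δ : ℝ) (hF : ContDiff ℝ (⊤ : ℕ∞) F) (hδ : 0 < δ)
    (h0 : ∀ x, x ∉ Icc δ (1 - δ) → F x = 0) : ContDiff ℝ (⊤ : ℕ∞) (fun x => F x / x) := by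
  rw [contDiff_iff_contDiffAt]
  intro x
  by_cases hx : 0 < x
  · exact hF.contDiffAt.div contDiffAt_id hx.ne'
  · have h1 : (fun x => F x / x) =ᶠ[nhds x] fun _ => 0 := by
      filter_upwards [gt_mem_nhds (show x < δ by linarith)] with y hy
      rw [h0 y (fun h => absurd h.1 (not_le.2 hy)), zero_div]
    exact contDiffAt_const.congr_of_eventuallyEq h1

theorem smK (F : ℝ → ℝ) (δ : ℝ) (hF : ContDiff ℝ (⊤ : ℕ∞) F) (hδ : 0 < δ)
    (h0 : ∀ x, x ∉ Icc δ (1 - δ) → F x = 0) :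
    ContDiff ℝ (⊤ : ℕ∞) (fun x => F x / Real.sqrt x) := by
  rw [contDiff_iff_contDiffAt]
  intro x
  by_cases hx : 0 < x
  · exact hF.contDiffAt.div (contDiffAt_id.sqrt hx.ne') (Real.sqrt_pos.2 hx).ne'
  · have h1 : (fun x => F x / Real.sqrt x) =ᶠ[nhds x] fun _ => 0 := by
      filter_upwards [gt_mem_nhds (show x < δ by linarith)] with y hy
      rw [h0 y (fun h => absurd h.1 (not_le.2 hy)), zero_div]
    exact contDiffAt_const.congr_of_eventuallyEq h1

theorem sm_sq : ContDiff ℝ (⊤ : ℕ∞) sq := by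
  unfold sq
  fun_prop

theorem smU (F : ℝ → ℝ) (δ : ℝ) (hF : ContDiff ℝ (⊤ : ℕ∞) F) (hδ : 0 < δ)
    (h0 : ∀ x, x ∉ Icc δ (1 - δ) → F x = 0) (A B D : ℝ) : ContDiff ℝ (⊤ : ℕ∞) (uu F A B D) := by
  have h1 := (smK F δ hF hδ h0).comp sm_sq
  have h2 := (smG F δ hF hδ h0).comp sm_sq
  have h3 : ContDiff ℝ (⊤ : ℕ∞) (fun z : E2 => B * z 0 + D * z 1) := by fun_prop
  exact (contDiff_const.mul h1).add (h3.mul h2)

theorem sq_norm (z : E2) : sq z = ‖z‖ ^ 2 := by
  rw [EuclideanSpace.norm_sq_eq, Fin.sum_univ_two]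
  simp [sq]

theorem tsU (F : ℝ → ℝ) (δ : ℝ) (h0 : ∀ x, x ∉ Icc δ (1 - δ) → F x = 0) (A B D : ℝ) :
    tsupport (uu F A B D) ⊆ {z | sq z ∈ Icc δ (1 - δ)} := by
  have hcl : IsClosed {z | sq z ∈ Icc δ (1 - δ)} := isClosed_Icc.preimage sm_sq.continuous
  refine closure_minimal ?_ hcl
  intro z hz
  by_contra hcon
  apply hz
  unfold uu
  rw [h0 _ hcon]
  simp

theorem tsB (F : ℝ → ℝ) (δ : ℝ) (hδ : 0 < δ) (h0 : ∀ x, x ∉ Icc δ (1 - δ) → F x = 0)
    (A B D : ℝ) : tsupport (uu F A B D) ⊆ Metric.ball (0 : E2) 1 := by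
  intro z hz
  have h1 := (tsU F δ h0 A B D hz).2
  rw [sq_norm] at h1
  rw [mem_ball_zero_iff]
  nlinarith [norm_nonneg z]

theorem cpU (F : ℝ → ℝ) (δ : ℝ) (hδ : 0 < δ) (h0 : ∀ x, x ∉ Icc δ (1 - δ) → F x = 0)
    (A B D : ℝ) : HasCompactSupport (uu F A B D) :=
  (isCompact_closedBall (0 : E2) 1).of_isClosed_subset (isClosed_tsupport _)
    ((tsB F δ hδ h0 A B D).trans Metric.ball_subset_closedBall)

/-! ### The norm and the energy -/

theorem F_eq (F : ℝ → ℝ) (δ : ℝ) (hδ : 0 < δ) (h0 : ∀ x, x ∉ Icc δ (1 - δ) → F x = 0) (x : ℝ) :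
    F x = x * (F x / x) := by
  by_cases hx : x = 0
  · subst hx
    rw [h0 0 (fun h => absurd h.1 (not_le.2 hδ))]
    simp
  · field_simp

theorem normU (hLPO : T_LPO) (F : ℝ → ℝ) (δ : ℝ) (hF : ContDiff ℝ (⊤ : ℕ∞) F) (hδ : 0 < δ)
    (h0 : ∀ x, x ∉ Icc δ (1 - δ) → F x = 0) (A B D : ℝ) :
    ∫ z, uu F A B D z ^ 2 = (2 * Real.pi * A ^ 2 + Real.pi * (B ^ 2 + D ^ 2)) *
      ((∫ x in (0 : ℝ)..1, F x ^ 2 / x) / 2) := by
  have hG := (smG F δ hF hδ h0).continuous
  have hU := (smU F δ hF hδ h0 A B D).continuous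
  have hG2 : Continuous (fun r : ℝ => F (r ^ 2) / r ^ 2) := hG.comp (continuous_pow 2)
  have h1 := polar hLPO (fun z => uu F A B D z ^ 2) (hU.pow 2) (fun z => sq_nonneg _)
    (fun r => (r * (F (r ^ 2) / r ^ 2)) ^ 2 * r) (fun _ => 0)
    (fun θ => (A + B * Real.cos θ + D * Real.sin θ) ^ 2) (fun _ => 0)
    (2 * Real.pi * A ^ 2 + Real.pi * (B ^ 2 + D ^ 2)) 0
    (((continuous_id.mul hG2).pow 2).mul continuous_id) continuous_const (by fun_prop)
    continuous_const ?_ (fun _ _ => rfl) (ang A B D) (by simp) ?_ (fun _ _ => le_rfl)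
    (fun θ => sq_nonneg _) (fun _ => le_rfl) ?_
  · rw [h1]
    have h2 : ∀ r : ℝ, (r * (F (r ^ 2) / r ^ 2)) ^ 2 * r *
        (2 * Real.pi * A ^ 2 + Real.pi * (B ^ 2 + D ^ 2)) + 0 * 0 =
        (2 * Real.pi * A ^ 2 + Real.pi * (B ^ 2 + D ^ 2)) *
        (1 / 2 * (((fun x => F x ^ 2 / x) ∘ fun r : ℝ => r ^ 2) r * (2 * r))) := by
      intro r
      have h3 : (r * (F (r ^ 2) / r ^ 2)) ^ 2 * r = F (r ^ 2) ^ 2 / r ^ 2 * r := by
        by_cases hr : r = 0
        · subst hr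
          simp
        · field_simp
      rw [h3]
      simp only [Function.comp]
      ring
    simp_rw [h2]
    rw [intervalIntegral.integral_const_mul, intervalIntegral.integral_const_mul,
      intervalIntegral.integral_comp_mul_deriv (f := fun r : ℝ => r ^ 2)
        (f' := fun r : ℝ => 2 * r) (g := fun x => F x ^ 2 / x)]
    · rw [zero_pow two_ne_zero, one_pow]
      ring
    · intro x _
      have := hasDerivAt_pow 2 x
      refine this.congr_deriv ?_
      simp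
    · fun_prop
    · have e : (fun x => F x ^ 2 / x) = fun x => F x * (F x / x) := by
        funext x
        ring
      rw [e]
      exact hF.continuous.mul hG
  · intro r hr
    have h3 : F (r ^ 2) = 0 := h0 _ (fun h => by
      have := h.2
      nlinarith)
    simp [h3]
  · intro r hr
    exact mul_nonneg (sq_nonneg _) hr.le
  · intro r hr θ
    simp only [uu_pt F A B D r hr θ]
    ring

/-- the radial energy integral -/
theorem radE (F : ℝ → ℝ) (δ : ℝ) (hF : ContDiff ℝ (⊤ : ℕ∞) F) (hδ : 0 < δ)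
    (h0 : ∀ x, x ∉ Icc δ (1 - δ) → F x = 0) :
    ∫ r in (0 : ℝ)..1, ((F (r ^ 2) / r ^ 2 + r * (deriv (fun x => F x / x) (r ^ 2) * (2 * r))) ^ 2 * r
      + (F (r ^ 2) / r ^ 2) ^ 2 * r) = 2 * ∫ x in (0 : ℝ)..1, deriv F x ^ 2 := by
  have hG := smG F δ hF hδ h0
  have hG1 : Continuous (deriv (fun x => F x / x)) := hG.continuous_deriv (by simp)
  have hF1 : Continuous (deriv F) := hF.continuous_deriv (by simp)
  have hGd : ∀ x, HasDerivAt (fun x => F x / x) (deriv (fun x => F x / x) x) x := fun x =>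
    ((hG.differentiable (by simp)) x).hasDerivAt
  have hG2 : Continuous (fun r : ℝ => F (r ^ 2) / r ^ 2) := hG.continuous.comp (continuous_pow 2)
  have hG3 : Continuous (fun r : ℝ => deriv (fun x => F x / x) (r ^ 2)) :=
    hG1.comp (continuous_pow 2)
  have hF2 : Continuous (fun r : ℝ => deriv F (r ^ 2)) := hF1.comp (continuous_pow 2)
  have hFd : ∀ x, deriv F x = F x / x + x * deriv (fun x => F x / x) x := by
    intro x
    have h1 : HasDerivAt (fun x => x * (F x / x)) (1 * (F x / x) +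
        x * deriv (fun x => F x / x) x) x := (hasDerivAt_id x).mul (hGd x)
    have h2 : (fun x => x * (F x / x)) = F := by
      funext y
      exact (F_eq F δ hδ h0 y).symm
    rw [h2] at h1
    rw [h1.deriv, one_mul]
  have hsq : ∀ r : ℝ, HasDerivAt (fun r : ℝ => r ^ 2) (2 * r) r := by
    intro r
    have := hasDerivAt_pow 2 r
    refine this.congr_deriv ?_
    simp
  -- the total derivative
  have hm : ∀ r ∈ uIcc (0 : ℝ) 1, HasDerivAt (fun r : ℝ => r ^ 2 * (F (r ^ 2) / r ^ 2) ^ 2)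
      (2 * r * (F (r ^ 2) / r ^ 2) ^ 2 + r ^ 2 * (2 * (F (r ^ 2) / r ^ 2) *
        (deriv (fun x => F x / x) (r ^ 2) * (2 * r)))) r := by
    intro r _
    have h1 : HasDerivAt (fun r : ℝ => F (r ^ 2) / r ^ 2)
        (deriv (fun x => F x / x) (r ^ 2) * (2 * r)) r := by
      have h1' := HasDerivAt.comp r (hGd (r ^ 2)) (hsq r)
      exact h1'
    refine ((hsq r).mul (h1.pow 2)).congr_deriv ?_
    simp
  have hmi := intervalIntegral.integral_eq_sub_of_hasDerivAt hm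
    (Continuous.intervalIntegrable (by fun_prop) _ _)
  have hF1' : F 1 = 0 := h0 1 (fun h => by linarith [h.2])
  have hsub : ∫ r in (0 : ℝ)..1, ((fun x => 2 * deriv F x ^ 2) ∘ fun r : ℝ => r ^ 2) r * (2 * r) =
      ∫ x in (0 : ℝ) ^ 2..1 ^ 2, 2 * deriv F x ^ 2 :=
    intervalIntegral.integral_comp_mul_deriv (f := fun r : ℝ => r ^ 2)
        (f' := fun r : ℝ => 2 * r) (g := fun x => 2 * deriv F x ^ 2) (fun x _ => hsq x)
        (by fun_prop) (by fun_prop)
  have hall : ∀ r : ℝ, (F (r ^ 2) / r ^ 2 + r * (deriv (fun x => F x / x) (r ^ 2) * (2 * r))) ^ 2 * r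
      + (F (r ^ 2) / r ^ 2) ^ 2 * r =
      ((fun x => 2 * deriv F x ^ 2) ∘ fun r : ℝ => r ^ 2) r * (2 * r) -
      (2 * r * (F (r ^ 2) / r ^ 2) ^ 2 + r ^ 2 * (2 * (F (r ^ 2) / r ^ 2) *
        (deriv (fun x => F x / x) (r ^ 2) * (2 * r)))) := by
    intro r
    simp only [Function.comp]
    rw [hFd (r ^ 2)]
    ring
  simp_rw [hall]
  rw [intervalIntegral.integral_sub, hsub, hmi]
  · norm_num [hF1']
  · exact Continuous.intervalIntegrable (by
      simp only [Function.comp]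
      fun_prop) _ _
  · exact Continuous.intervalIntegrable (by fun_prop) _ _

theorem enU (hLPO : T_LPO) (F : ℝ → ℝ) (δ : ℝ) (hF : ContDiff ℝ (⊤ : ℕ∞) F) (hδ : 0 < δ)
    (h0 : ∀ x, x ∉ Icc δ (1 - δ) → F x = 0) (A B D : ℝ) :
    ∫ z, ‖fderiv ℝ (uu F A B D) z‖ ^ 2 ≤
      (2 * Real.pi * A ^ 2 + Real.pi * (B ^ 2 + D ^ 2)) *
        (2 * ∫ x in (0 : ℝ)..1, deriv F x ^ 2) := by
  have hG := smG F δ hF hδ h0
  have hU := smU F δ hF hδ h0 A B D
  have hG1 : Continuous (deriv (fun x => F x / x)) := hG.continuous_deriv (by simp)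
  have hGd : ∀ x, HasDerivAt (fun x => F x / x) (deriv (fun x => F x / x) x) x := fun x =>
    ((hG.differentiable (by simp)) x).hasDerivAt
  have hG2 : Continuous (fun r : ℝ => F (r ^ 2) / r ^ 2) := hG.continuous.comp (continuous_pow 2)
  have hG3 : Continuous (fun r : ℝ => deriv (fun x => F x / x) (r ^ 2)) :=
    hG1.comp (continuous_pow 2)
  have hsq : ∀ r : ℝ, HasDerivAt (fun r : ℝ => r ^ 2) (2 * r) r := by
    intro r
    have := hasDerivAt_pow 2 r
    refine this.congr_deriv ?_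
    simp
  have hv : ∀ r, HasDerivAt (fun r : ℝ => r * (F (r ^ 2) / r ^ 2))
      (F (r ^ 2) / r ^ 2 + r * (deriv (fun x => F x / x) (r ^ 2) * (2 * r))) r := by
    intro r
    have h1 : HasDerivAt (fun r : ℝ => F (r ^ 2) / r ^ 2)
        (deriv (fun x => F x / x) (r ^ 2) * (2 * r)) r := by
      have h1' := HasDerivAt.comp r (hGd (r ^ 2)) (hsq r)
      exact h1'
    refine ((hasDerivAt_id r).mul h1).congr_deriv ?_
    simp
  have hX : ∀ θ, HasDerivAt (fun θ => A + B * Real.cos θ + D * Real.sin θ)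
      (-(B * Real.sin θ) + D * Real.cos θ) θ := by
    intro θ
    have h1 := (((Real.hasDerivAt_cos θ).const_mul B).const_add A).add
      ((Real.hasDerivAt_sin θ).const_mul D)
    refine h1.congr_deriv ?_
    ring
  have h1 := polar hLPO (fun z => ‖fderiv ℝ (uu F A B D) z‖ ^ 2)
    ((hU.continuous_fderiv (by simp)).norm.pow 2) (fun z => sq_nonneg _)
    (fun r => (F (r ^ 2) / r ^ 2 + r * (deriv (fun x => F x / x) (r ^ 2) * (2 * r))) ^ 2 * r)
    (fun r => (F (r ^ 2) / r ^ 2) ^ 2 * r)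
    (fun θ => (A + B * Real.cos θ + D * Real.sin θ) ^ 2)
    (fun θ => (-(B * Real.sin θ) + D * Real.cos θ) ^ 2)
    (2 * Real.pi * A ^ 2 + Real.pi * (B ^ 2 + D ^ 2)) (Real.pi * (B ^ 2 + D ^ 2))
    (by fun_prop) (by fun_prop) (by fun_prop) (by fun_prop) ?_ ?_ (ang A B D) (ang2 B D)
    (fun r hr => mul_nonneg (sq_nonneg _) hr.le) (fun r hr => mul_nonneg (sq_nonneg _) hr.le)
    (fun θ => sq_nonneg _) (fun θ => sq_nonneg _) ?_
  · rw [h1, ← radE F δ hF hδ h0, ← intervalIntegral.integral_const_mul]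
    refine intervalIntegral.integral_mono_on zero_le_one
      (Continuous.intervalIntegrable (by fun_prop) _ _)
      (Continuous.intervalIntegrable (by fun_prop) _ _) ?_
    intro r hr
    have h2 : 0 ≤ (F (r ^ 2) / r ^ 2) ^ 2 * r * (2 * Real.pi * A ^ 2) :=
      mul_nonneg (mul_nonneg (sq_nonneg _) hr.1) (by positivity)
    linarith
  · intro r hr
    have h2 : (fun x => F x / x) =ᶠ[nhds (r ^ 2)] fun _ => 0 := by
      filter_upwards [lt_mem_nhds (show 1 < r ^ 2 by nlinarith)] with y hy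
      rw [h0 y (fun h => by linarith [h.2]), zero_div]
    have h3 : deriv (fun x => F x / x) (r ^ 2) = 0 := by
      rw [h2.deriv_eq]
      simp
    have h4 : F (r ^ 2) = 0 := h0 _ (fun h => by
      have := h.2
      nlinarith)
    simp [h3, h4]
  · intro r hr
    have h4 : F (r ^ 2) = 0 := h0 _ (fun h => by
      have := h.2
      nlinarith)
    simp [h4]
  · intro r hr θ
    rw [grad (uu F A B D) (hU.differentiable (by simp)) _ _ _ _ r θ hr (hv r) (hX θ)
      (fun r hr θ => uu_pt F A B D r hr θ)]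
    have e : r * (F (r ^ 2) / r ^ 2) * (-(B * Real.sin θ) + D * Real.cos θ) / r =
        F (r ^ 2) / r ^ 2 * (-(B * Real.sin θ) + D * Real.cos θ) := by
      field_simp
    rw [e]
    ring

theorem uu_lin (F : ℝ → ℝ) (A B D : ℝ) :
    A • uu F 1 0 0 + B • uu F 0 1 0 + D • uu F 0 0 1 = uu F A B D := by
  funext z
  simp only [Pi.add_apply, Pi.smul_apply, smul_eq_mul, uu]
  ring

theorem uu_zero (hLPO : T_LPO) (F : ℝ → ℝ) (δ : ℝ) (hF : ContDiff ℝ (⊤ : ℕ∞) F) (hδ : 0 < δ)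
    (h0 : ∀ x, x ∉ Icc δ (1 - δ) → F x = 0) (hpos : 0 < ∫ x in (0 : ℝ)..1, F x ^ 2 / x)
    (A B D : ℝ) (h : uu F A B D = 0) : A = 0 ∧ B = 0 ∧ D = 0 := by
  have h1 := normU hLPO F δ hF hδ h0 A B D
  rw [h] at h1
  simp only [Pi.zero_apply, ne_eq, OfNat.ofNat_ne_zero, not_false_eq_true, zero_pow,
    integral_zero] at h1
  have h2 : 2 * Real.pi * A ^ 2 + Real.pi * (B ^ 2 + D ^ 2) = 0 := by
    rcases mul_eq_zero.1 h1.symm with h3 | h3
    · exact h3
    · linarith
  have hp := Real.pi_pos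
  have hA : 0 ≤ 2 * Real.pi * A ^ 2 := by positivity
  have hB : 0 ≤ Real.pi * B ^ 2 := by positivity
  have hD : 0 ≤ Real.pi * D ^ 2 := by positivity
  have hA0 : 2 * Real.pi * A ^ 2 = 0 := by linarith
  have hB0 : Real.pi * B ^ 2 = 0 := by linarith
  have hD0 : Real.pi * D ^ 2 = 0 := by linarith
  refine ⟨?_, ?_, ?_⟩
  · exact (pow_eq_zero_iff two_ne_zero).1 ((mul_eq_zero.1 hA0).resolve_left (by positivity))
  · exact (pow_eq_zero_iff two_ne_zero).1 ((mul_eq_zero.1 hB0).resolve_left hp.ne')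
  · exact (pow_eq_zero_iff two_ne_zero).1 ((mul_eq_zero.1 hD0).resolve_left hp.ne')

theorem pf_UP2 (hLPO : T_LPO) : T_UP2 := by
  intro F δ a hF hδ h0 hpos hle
  have hli : LinearIndependent ℝ ![uu F 1 0 0, uu F 0 1 0, uu F 0 0 1] := by
    rw [Fintype.linearIndependent_iff]
    intro g hg
    rw [Fin.sum_univ_three] at hg
    simp only [Matrix.cons_val_zero, Matrix.cons_val_one, Matrix.cons_val] at hg
    rw [uu_lin] at hg
    obtain ⟨h1, h2, h3⟩ := uu_zero hLPO F δ hF hδ h0 hpos _ _ _ hg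
    intro i
    fin_cases i
    · exact h1
    · exact h2
    · exact h3
  refine ⟨Submodule.span ℝ (range ![uu F 1 0 0, uu F 0 1 0, uu F 0 0 1]), ?_, ?_⟩
  · rw [finrank_span_eq_card hli]
    simp
  · intro v hv
    obtain ⟨c, hc⟩ := (Submodule.mem_span_range_iff_exists_fun ℝ).1 hv
    rw [Fin.sum_univ_three] at hc
    simp only [Matrix.cons_val_zero, Matrix.cons_val_one, Matrix.cons_val] at hc
    rw [uu_lin] at hc
    rw [← hc]
    refine ⟨smU F δ hF hδ h0 _ _ _, cpU F δ hδ h0 _ _ _, tsB F δ hδ h0 _ _ _, ?_⟩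
    rw [normU hLPO F δ hF hδ h0]
    refine (enU hLPO F δ hF hδ h0 _ _ _).trans ?_
    have hQ : 0 ≤ 2 * Real.pi * c 0 ^ 2 + Real.pi * (c 1 ^ 2 + c 2 ^ 2) := by
      have := Real.pi_pos
      positivity
    have h5 := mul_le_mul_of_nonneg_left hle hQ
    linarith

end Pool.Agent.H34.RK.UP2
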